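import Mathlib

set_option autoImplicit false

namespace Pool.Agent.X109.LI

open Finset Filter Topology

/-- A power series converging absolutely at `r > 0` gives an analytic function whose iterated
derivatives at `0` are `m! a_m`. -/
theorem ps_analytic (a : ℕ → ℝ) (r : ℝ) (hr : 0 < r) (hs : Summable fun m => |a m| * r ^ m) :
    AnalyticAt ℝ (fun x => ∑' m, a m * x ^ m) 0 ∧
      ∀ m, iteratedDeriv m (fun x => ∑' m, a m * x ^ m) 0 = (m.factorial : ℝ) * a m := by
  set p : FormalMultilinearSeries ℝ ℝ ℝ := FormalMultilinearSeries.ofScalars ℝ a with hp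
  have hrad : (ENNReal.ofReal r) ≤ p.radius := by
    rw [ENNReal.ofReal]
    apply FormalMultilinearSeries.le_radius_of_summable_norm
    refine hs.congr fun m => ?_
    rw [hp, FormalMultilinearSeries.ofScalars_norm, Real.coe_toNNReal r hr.le, Real.norm_eq_abs]
  have hpos : 0 < p.radius := lt_of_lt_of_le (by simpa using hr) hrad
  have hball := p.hasFPowerSeriesOnBall hpos
  have hsum : p.sum = fun x => ∑' m, a m * x ^ m := by
    funext x
    rw [FormalMultilinearSeries.sum]
    refine tsum_congr fun m => ?_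
    rw [hp, FormalMultilinearSeries.ofScalars_apply_eq]
    simp
  rw [hsum] at hball
  refine ⟨hball.analyticAt, fun m => ?_⟩
  have h2 := hball.factorial_smul (n := m) (y := (1 : ℝ))
  rw [iteratedDeriv_eq_iteratedFDeriv, ← h2, hp, FormalMultilinearSeries.ofScalars_apply_eq]
  simp

/-- closure of the iterated derivatives of `exp ∘ h` in an algebra -/
theorem exp_closure (A : Subalgebra ℚ ℝ) (h : ℝ → ℝ) (hh : AnalyticAt ℝ h 0) (h0 : h 0 = 0)
    (hA : ∀ m, 1 ≤ m → iteratedDeriv m h 0 ∈ A) (m : ℕ) :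
    iteratedDeriv m (fun x => Real.exp (h x)) 0 ∈ A := by
  induction m using Nat.strong_induction_on with
  | _ m ih =>
    rcases Nat.eq_zero_or_pos m with rfl | hm
    · simp [h0]
    · obtain ⟨n, rfl⟩ : ∃ n, m = n + 1 := ⟨m - 1, by omega⟩
      rw [iteratedDeriv_succ']
      have h1 : deriv (fun x => Real.exp (h x)) =ᶠ[𝓝 0] (fun x => Real.exp (h x)) * deriv h := by
        filter_upwards [hh.eventually_analyticAt] with x hx
        exact (hx.differentiableAt.hasDerivAt.exp).deriv
      rw [Filter.EventuallyEq.iteratedDeriv_eq n h1]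
      have ha : AnalyticAt ℝ (fun x => Real.exp (h x)) 0 := hh.rexp
      rw [iteratedDeriv_mul ha.contDiffAt hh.deriv.contDiffAt]
      refine Subalgebra.sum_mem _ fun i hi => ?_
      rw [mem_range] at hi
      refine Subalgebra.mul_mem _ (Subalgebra.mul_mem _ (natCast_mem A _) (ih i (by omega))) ?_
      rw [← iteratedDeriv_succ']
      exact hA _ (by omega)

/-- coefficients of a power series which agrees with `exp ∘ h` on `(0, δ)` -/
theorem coeff_mem (A : Subalgebra ℚ ℝ) (c : ℕ → ℝ) (r : ℝ) (hr : 0 < r)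
    (hs : Summable fun m => |c m| * r ^ m) (h : ℝ → ℝ) (hh : AnalyticAt ℝ h 0) (h0 : h 0 = 0)
    (hA : ∀ m, 1 ≤ m → iteratedDeriv m h 0 ∈ A) (δ : ℝ) (hδ : 0 < δ)
    (heq : ∀ x, 0 < x → x < δ → ∑' m, c m * x ^ m = Real.exp (h x)) (m : ℕ) : c m ∈ A := by
  obtain ⟨h1, h2⟩ := ps_analytic c r hr hs
  have h3 : (fun x => ∑' m, c m * x ^ m) =ᶠ[𝓝 0] (fun x => Real.exp (h x)) := by
    refine (h1.frequently_eq_iff_eventually_eq (g := fun x => Real.exp (h x)) hh.rexp).1 ?_
    have h4 : ∀ᶠ x in 𝓝[>] (0 : ℝ), ∑' m, c m * x ^ m = Real.exp (h x) := by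
      filter_upwards [Ioo_mem_nhdsGT hδ] with x hx
      exact heq x hx.1 hx.2
    exact (h4.frequently).filter_mono (nhdsWithin_mono _ fun x hx => ne_of_gt hx)
  have h5 := Filter.EventuallyEq.iteratedDeriv_eq m h3
  rw [h2] at h5
  have h6 := exp_closure A h hh h0 hA m
  rw [← h5] at h6
  have h7 : c m = (algebraMap ℚ ℝ) ((m.factorial : ℚ)⁻¹) * ((m.factorial : ℝ) * c m) := by
    have : (m.factorial : ℝ) ≠ 0 := by positivity
    simp
    field_simp
  rw [h7]
  exact Subalgebra.mul_mem _ (Subalgebra.algebraMap_mem _ _) h6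

/-- Vandermonde: a polynomial whose values at `1, …, M + 1` are in a rational space has its
coefficients there. -/
theorem vander (A : Subalgebra ℚ ℝ) (M : ℕ) (c : Fin (M + 1) → ℝ)
    (h : ∀ k : Fin (M + 1), ∑ j, c j * (((k : ℕ) + 1 : ℕ) : ℝ) ^ (j : ℕ) ∈ A) (j : Fin (M + 1)) :
    c j ∈ A := by
  set V : Matrix (Fin (M + 1)) (Fin (M + 1)) ℚ := Matrix.vandermonde fun i => (((i : ℕ) + 1 : ℕ) : ℚ) with hV
  have hdet : IsUnit V.det := by
    rw [isUnit_iff_ne_zero, hV, Matrix.det_vandermonde_ne_zero_iff]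
    intro a b hab
    simp only at hab
    have : (a : ℕ) + 1 = b + 1 := by exact_mod_cast hab
    exact Fin.ext (by omega)
  have hinv : V⁻¹ * V = 1 := Matrix.nonsing_inv_mul V hdet
  have h1 : c j = ∑ k, (algebraMap ℚ ℝ) (V⁻¹ j k) * ∑ l, c l * (((k : ℕ) + 1 : ℕ) : ℝ) ^ (l : ℕ) := by
    have h2 : ∀ l, ∑ k, (V⁻¹ j k) * V k l = if j = l then 1 else 0 := by
      intro l
      have := congrFun (congrFun hinv j) l
      rw [Matrix.mul_apply, Matrix.one_apply] at this
      exact this
    calc c j = ∑ l, c l * (if j = l then 1 else 0) := by simp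
      _ = ∑ l, c l * (algebraMap ℚ ℝ) (∑ k, (V⁻¹ j k) * V k l) := by
          refine Finset.sum_congr rfl fun l _ => ?_
          rw [h2 l]
          split_ifs <;> simp
      _ = ∑ l, ∑ k, (algebraMap ℚ ℝ) (V⁻¹ j k) * (c l * (((k : ℕ) + 1 : ℕ) : ℝ) ^ (l : ℕ)) := by
          refine Finset.sum_congr rfl fun l _ => ?_
          rw [map_sum, Finset.mul_sum]
          refine Finset.sum_congr rfl fun k _ => ?_
          rw [map_mul, hV, Matrix.vandermonde_apply]
          simp
          ring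
      _ = _ := by
          rw [Finset.sum_comm]
          refine Finset.sum_congr rfl fun k _ => ?_
          rw [Finset.mul_sum]
  rw [h1]
  exact Subalgebra.sum_mem _ fun k _ => Subalgebra.mul_mem _ (Subalgebra.algebraMap_mem _ _) (h k)

end Pool.Agent.X109.LI
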