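import Mathlib

set_option autoImplicit false

namespace Pool.Agent.X109.LI

open Finset Filter Topology

/-- `ζ(m)` for `m ≥ 2` -/
noncomputable def zr (m : ℕ) : ℝ := ∑' j : ℕ, 1 / ((j : ℝ) + 1) ^ m

theorem zr_summable {m : ℕ} (hm : 2 ≤ m) : Summable fun j : ℕ => 1 / ((j : ℝ) + 1) ^ m := by
  have h := (Real.summable_one_div_nat_pow (p := m)).2 (by omega)
  have h1 := (summable_nat_add_iff 1).2 h
  refine h1.congr fun j => ?_
  push_cast
  rfl

theorem zr_le {m : ℕ} (hm : 2 ≤ m) : zr m ≤ zr 2 := by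
  unfold zr
  refine (zr_summable hm).tsum_le_tsum (fun j => ?_) (zr_summable le_rfl)
  apply one_div_le_one_div_of_le (by positivity)
  exact pow_le_pow_right₀ (by linarith [(Nat.cast_nonneg j : (0 : ℝ) ≤ j)]) hm

theorem zr_nonneg (m : ℕ) : 0 ≤ zr m := tsum_nonneg fun j => by positivity

/-- coefficient -/
noncomputable def cf (α β : ℝ) (n : ℕ) : ℝ :=
  ((-α) ^ (n + 1) + (-β) ^ (n + 1) - (-(α + β)) ^ (n + 1)) / (n + 1)

theorem cf_abs {α β : ℝ} (hα : 0 ≤ α) (hβ : 0 ≤ β) (n : ℕ) : |cf α β n| ≤ (α + β) ^ (n + 1) := by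
  have h1 : cf α β n = (-1) ^ (n + 1) * ((α ^ (n + 1) + β ^ (n + 1) - (α + β) ^ (n + 1)) / (n + 1)) := by
    rw [cf, neg_pow α, neg_pow β, neg_pow (α + β)]
    ring
  rw [h1, abs_mul, abs_pow, abs_neg, abs_one, one_pow, one_mul, abs_div]
  have h2 : α ^ (n + 1) + β ^ (n + 1) ≤ (α + β) ^ (n + 1) := by
    exact pow_add_pow_le hα hβ n.succ_ne_zero
  have h3 : 0 ≤ α ^ (n + 1) + β ^ (n + 1) := by positivity
  have h4 : 0 ≤ (α + β) ^ (n + 1) := by positivity
  have h5 : |α ^ (n + 1) + β ^ (n + 1) - (α + β) ^ (n + 1)| ≤ (α + β) ^ (n + 1) := by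
    rw [abs_le]
    constructor <;> linarith
  have h6 : (1 : ℝ) ≤ |(n : ℝ) + 1| := by
    rw [abs_of_nonneg (by positivity)]
    linarith [(Nat.cast_nonneg n : (0 : ℝ) ≤ n)]
  exact (div_le_self (abs_nonneg _) h6).trans h5

/-- the term of the double series -/
noncomputable def tt (α β : ℝ) (p : ℕ × ℕ) : ℝ := cf α β p.2 * (1 / ((p.1 : ℝ) + 1) ^ (p.2 + 1))

theorem cf_zero (α β : ℝ) : cf α β 0 = 0 := by
  simp [cf]
  ring

theorem tt_summable {α β : ℝ} (hα : 0 ≤ α) (hβ : 0 ≤ β) (h1 : α + β < 1) : Summable (tt α β) := by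
  have hs1 : Summable fun n : ℕ => (α + β) ^ (n + 1) :=
    (summable_nat_add_iff 1).2 (summable_geometric_of_lt_one (by positivity) h1)
  have hs := (zr_summable le_rfl).mul_of_nonneg hs1 (fun j => by positivity) (fun n => by positivity)
  refine Summable.of_norm_bounded hs fun p => ?_
  rw [tt, norm_mul, Real.norm_eq_abs, Real.norm_eq_abs, mul_comm]
  rcases Nat.eq_zero_or_pos p.2 with h0 | h0
  · rw [h0, cf_zero, abs_zero, mul_zero]
    positivity
  · refine mul_le_mul ?_ (cf_abs hα hβ _) (abs_nonneg _) (by positivity)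
    rw [abs_of_nonneg (by positivity)]
    apply one_div_le_one_div_of_le (by positivity)
    exact pow_le_pow_right₀ (by linarith [(Nat.cast_nonneg p.1 : (0 : ℝ) ≤ p.1)]) (by omega)

/-- the logarithm of the factor -/
noncomputable def el (α β : ℝ) (j : ℕ) : ℝ :=
  Real.log (1 + (α + β) / (j + 1)) - Real.log (1 + α / (j + 1)) - Real.log (1 + β / (j + 1))

theorem el_hasSum {α β : ℝ} (hα : 0 ≤ α) (hβ : 0 ≤ β) (h1 : α + β < 1) (j : ℕ) :
    HasSum (fun n => tt α β (j, n)) (el α β j) := by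
  have hj : (1 : ℝ) ≤ (j : ℝ) + 1 := by linarith [(Nat.cast_nonneg j : (0 : ℝ) ≤ j)]
  have key : ∀ x : ℝ, 0 ≤ x → x < 1 → HasSum (fun n : ℕ => (-x / (j + 1)) ^ (n + 1) / (n + 1))
      (-Real.log (1 + x / (j + 1))) := by
    intro x hx hx1
    have h2 : |-x / ((j : ℝ) + 1)| < 1 := by
      rw [abs_div, abs_neg, abs_of_nonneg hx, abs_of_pos (by linarith), div_lt_one (by linarith)]
      linarith
    have h3 := Real.hasSum_pow_div_log_of_abs_lt_one h2
    convert h3 using 2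
    ring_nf
  have h2 := ((key α hα (by linarith)).add (key β hβ (by linarith))).sub
    (key (α + β) (by positivity) h1)
  have e1 : (fun n => tt α β (j, n)) = fun b : ℕ =>
      (-α / ((j : ℝ) + 1)) ^ (b + 1) / (b + 1) + (-β / ((j : ℝ) + 1)) ^ (b + 1) / (b + 1) -
        (-(α + β) / ((j : ℝ) + 1)) ^ (b + 1) / (b + 1) := by
    funext n
    rw [tt, cf]
    simp only [div_pow]
    field_simp
  have e2 : el α β j = -Real.log (1 + α / (j + 1)) + -Real.log (1 + β / (j + 1)) -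
      -Real.log (1 + (α + β) / (j + 1)) := by
    rw [el]
    ring
  rw [e1, e2]
  exact h2

theorem el_sum {α β : ℝ} (hα : 0 ≤ α) (hβ : 0 ≤ β) (h1 : α + β < 1) :
    HasSum (el α β) (∑' n, cf α β n * zr (n + 1)) := by
  have hs := tt_summable hα hβ h1
  have h2 : HasSum (el α β) (∑' p, tt α β p) := hs.hasSum.prod_fiberwise (el_hasSum hα hβ h1)
  convert h2 using 1
  rw [hs.tsum_prod' (fun j => (el_hasSum hα hβ h1 j).summable)]
  have h3 := Summable.tsum_comm' (f := fun j n => tt α β (j, n)) hs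
    (fun j => (el_hasSum hα hβ h1 j).summable) (fun n => hs.comp_injective
      (i := fun j : ℕ => (j, n)) (fun a b hab => by simpa using hab))
  rw [← h3]
  refine tsum_congr fun n => ?_
  rw [zr, ← tsum_mul_left]
  rfl

/-- the partial product -/
noncomputable def TT (α β : ℝ) (n : ℕ) : ℝ :=
  ∏ j ∈ range n, ((j + 1 : ℝ) * (j + 1 + (α + β))) / ((j + 1 + α) * (j + 1 + β))

theorem TT_log {α β : ℝ} (hα : 0 ≤ α) (hβ : 0 ≤ β) (n : ℕ) :
    TT α β n = Real.exp (∑ j ∈ range n, el α β j) := by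
  rw [Real.exp_sum, TT]
  refine Finset.prod_congr rfl fun j _ => ?_
  have hj : (0 : ℝ) < (j : ℝ) + 1 := by positivity
  rw [el, Real.exp_sub, Real.exp_sub, Real.exp_log (by positivity), Real.exp_log (by positivity),
    Real.exp_log (by positivity)]
  have h2 : (j : ℝ) + 1 + α ≠ 0 := by positivity
  have h3 : (j : ℝ) + 1 + β ≠ 0 := by positivity
  field_simp

theorem TT_lim {α β : ℝ} (hα : 0 ≤ α) (hβ : 0 ≤ β) :
    Tendsto (TT α β) atTop
      (𝓝 (Real.Gamma (1 + α) * Real.Gamma (1 + β) / Real.Gamma (1 + (α + β)))) := by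
  have h1 := ((Real.GammaSeq_tendsto_Gamma (1 + α)).mul (Real.GammaSeq_tendsto_Gamma (1 + β))).div
    ((Real.GammaSeq_tendsto_Gamma (1 + (α + β))).mul (Real.GammaSeq_tendsto_Gamma 1)) (by
      rw [Real.Gamma_one, mul_one]
      exact (Real.Gamma_pos_of_pos (by positivity)).ne')
  rw [Real.Gamma_one, mul_one] at h1
  rw [← tendsto_add_atTop_iff_nat 1]
  refine h1.congr' ?_
  filter_upwards [eventually_ge_atTop 1] with n hn
  have hn0 : (0 : ℝ) < n := by exact_mod_cast hn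
  simp only [Pi.div_apply, Real.GammaSeq, TT]
  have e1 : (n : ℝ) ^ (1 + α) * (n : ℝ) ^ (1 + β) = (n : ℝ) ^ (1 + (α + β)) * (n : ℝ) ^ (1 : ℝ) := by
    rw [← Real.rpow_add hn0, ← Real.rpow_add hn0]
    ring_nf
  have hf : (n.factorial : ℝ) ≠ 0 := by positivity
  have hp : ∀ x : ℝ, 0 ≤ x → (∏ j ∈ range (n + 1), (1 + x + (j : ℝ))) ≠ 0 := fun x hx =>
    Finset.prod_ne_zero_iff.2 fun j _ => by positivity
  have hpa := hp α hα
  have hpb := hp β hβ
  have hpc := hp (α + β) (by positivity)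
  have hpd := hp 0 le_rfl
  have e2 : ∏ j ∈ range (n + 1), (((j : ℝ) + 1) * (j + 1 + (α + β))) / ((j + 1 + α) * (j + 1 + β)) =
      (∏ j ∈ range (n + 1), (1 + 0 + (j : ℝ))) * (∏ j ∈ range (n + 1), (1 + (α + β) + (j : ℝ))) /
      ((∏ j ∈ range (n + 1), (1 + α + (j : ℝ))) * (∏ j ∈ range (n + 1), (1 + β + (j : ℝ)))) := by
    rw [← Finset.prod_mul_distrib, ← Finset.prod_mul_distrib, ← Finset.prod_div_distrib]
    refine Finset.prod_congr rfl fun j _ => ?_
    congr 1 <;> ring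
  rw [e2]
  simp only [add_zero]
  have hN : (n : ℝ) ^ (1 + (α + β)) ≠ 0 := (Real.rpow_pos_of_pos hn0 _).ne'
  have hN1 : (n : ℝ) ^ (1 : ℝ) ≠ 0 := (Real.rpow_pos_of_pos hn0 _).ne'
  simp only [add_zero] at hpd
  rw [div_mul_div_comm, div_mul_div_comm, div_div_div_eq, div_eq_div_iff (by positivity) (by positivity)]
  calc _ = ((n : ℝ) ^ (1 + α) * (n : ℝ) ^ (1 + β)) * (n.factorial : ℝ) ^ 2 *
        ((∏ j ∈ range (n + 1), (1 + (α + β) + (j : ℝ))) * ∏ j ∈ range (n + 1), (1 + (j : ℝ))) *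
        ((∏ j ∈ range (n + 1), (1 + α + (j : ℝ))) * ∏ j ∈ range (n + 1), (1 + β + (j : ℝ))) := by ring
    _ = _ := by rw [e1]; ring

/-- the main identity for the Gamma factor -/
theorem gamma_exp {α β : ℝ} (hα : 0 ≤ α) (hβ : 0 ≤ β) (h1 : α + β < 1) :
    Real.Gamma (1 + α) * Real.Gamma (1 + β) / Real.Gamma (1 + (α + β)) =
      Real.exp (∑' n, cf α β n * zr (n + 1)) := by
  refine tendsto_nhds_unique (TT_lim hα hβ) ?_
  have h2 := (el_sum hα hβ h1).tendsto_sum_nat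
  have h3 := (Real.continuous_exp.tendsto _).comp h2
  refine h3.congr fun n => ?_
  rw [TT_log hα hβ]
  rfl

end Pool.Agent.X109.LI
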