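import Mathlib

set_option autoImplicit false

namespace Pool.Agent.X109.LI

open Filter Topology MeasureTheory

/-- expansion of an exponential integral -/
theorem exp_series {μ : Measure ℝ} (φ w : ℝ → ℝ) (hφ : AEStronglyMeasurable φ μ)
    (hw : AEStronglyMeasurable w μ) (hw1 : ∀ᵐ y ∂μ, |w y| ≤ 1) (r : ℝ) (hr : 0 < r)
    (hint : Integrable (fun y => Real.exp (r * |φ y|)) μ) :
    (Summable fun m : ℕ => |∫ y, φ y ^ m * w y / m.factorial ∂μ| * r ^ m) ∧
    (∀ x, |x| ≤ r → HasSum (fun m : ℕ => (∫ y, φ y ^ m * w y / m.factorial ∂μ) * x ^ m)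
      (∫ y, Real.exp (x * φ y) * w y ∂μ)) ∧
    ∀ m : ℕ, Integrable (fun y => φ y ^ m * w y) μ := by
  have hb : ∀ y : ℝ, HasSum (fun m : ℕ => (r * |φ y|) ^ m / m.factorial) (Real.exp (r * |φ y|)) :=
    fun y => by
      rw [Real.exp_eq_exp_ℝ]
      exact NormedSpace.expSeries_div_hasSum_exp (r * |φ y|)
  have hbi : Integrable (fun y => ∑' m : ℕ, (r * |φ y|) ^ m / m.factorial) μ := by
    refine hint.congr (Eventually.of_forall fun y => ?_)
    exact (hb y).tsum_eq.symm
  have hmeas : ∀ m : ℕ, AEStronglyMeasurable (fun y => φ y ^ m * w y / m.factorial) μ := fun m =>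
    by
      have := ((hφ.pow m).mul hw).mul_const ((m.factorial : ℝ)⁻¹)
      exact this
  have hbound : ∀ m : ℕ, ∀ᵐ y ∂μ, |φ y ^ m * w y / m.factorial| * r ^ m ≤
      (r * |φ y|) ^ m / m.factorial := by
    intro m
    filter_upwards [hw1] with y hy
    rw [abs_div, abs_mul, abs_pow, mul_pow, abs_of_nonneg (by positivity : (0 : ℝ) ≤ m.factorial)]
    rw [div_mul_eq_mul_div]
    apply div_le_div_of_nonneg_right _ (by positivity)
    have h1 : 0 ≤ |φ y| ^ m := by positivity
    have h2 : 0 ≤ r ^ m := by positivity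
    calc |φ y| ^ m * |w y| * r ^ m ≤ |φ y| ^ m * 1 * r ^ m := by gcongr
      _ = r ^ m * |φ y| ^ m := by ring
  have hI : ∀ m : ℕ, Integrable (fun y => φ y ^ m * w y / m.factorial) μ := by
    intro m
    refine Integrable.mono' (hint.const_mul (r ^ m)⁻¹) (hmeas m) ?_
    filter_upwards [hbound m] with y hy
    have h1 : (r * |φ y|) ^ m / m.factorial ≤ Real.exp (r * |φ y|) :=
      le_hasSum (hb y) m fun j _ => by positivity
    rw [Real.norm_eq_abs]
    have h2 : 0 < r ^ m := by positivity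
    rw [inv_mul_eq_div, le_div_iff₀ h2]
    exact hy.trans h1
  refine ⟨?_, fun x hx => ?_, fun m => ?_⟩
  · have h1 : HasSum (fun m : ℕ => ∫ y, |φ y ^ m * w y / m.factorial| * r ^ m ∂μ)
        (∫ y, ∑' m : ℕ, |φ y ^ m * w y / m.factorial| * r ^ m ∂μ) := by
      refine hasSum_integral_of_dominated_convergence
        (fun m y => (r * |φ y|) ^ m / m.factorial) (fun m => ?_) (fun m => ?_) ?_ hbi ?_
      · exact ((hmeas m).norm).mul_const _
      · filter_upwards [hbound m] with y hy
        rw [Real.norm_eq_abs, abs_of_nonneg (by positivity)]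
        exact hy
      · exact Eventually.of_forall fun y => (hb y).summable
      · have h2 : ∀ᵐ y ∂μ, ∀ m : ℕ, |φ y ^ m * w y / m.factorial| * r ^ m ≤
            (r * |φ y|) ^ m / m.factorial := ae_all_iff.2 hbound
        filter_upwards [h2] with y hy
        exact (Summable.of_nonneg_of_le (fun m => by positivity) hy (hb y).summable).hasSum
    refine Summable.of_nonneg_of_le (fun m => by positivity) (fun m => ?_) h1.summable
    rw [integral_mul_const]
    apply mul_le_mul_of_nonneg_right _ (by positivity)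
    exact abs_integral_le_integral_abs
  · have h1 : HasSum (fun m : ℕ => ∫ y, φ y ^ m * w y / m.factorial * x ^ m ∂μ)
        (∫ y, Real.exp (x * φ y) * w y ∂μ) := by
      refine hasSum_integral_of_dominated_convergence
        (fun m y => (r * |φ y|) ^ m / m.factorial) (fun m => ?_) (fun m => ?_) ?_ hbi ?_
      · exact (hmeas m).mul_const _
      · filter_upwards [hbound m] with y hy
        rw [norm_mul, Real.norm_eq_abs, norm_pow, Real.norm_eq_abs]
        refine le_trans ?_ hy
        gcongr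
      · exact Eventually.of_forall fun y => (hb y).summable
      · refine Eventually.of_forall fun y => ?_
        have h2 : HasSum (fun m : ℕ => (x * φ y) ^ m / m.factorial) (Real.exp (x * φ y)) := by
          rw [Real.exp_eq_exp_ℝ]
          exact NormedSpace.expSeries_div_hasSum_exp (x * φ y)
        refine (h2.mul_right (w y)).congr_fun ?_
        intro m
        rw [mul_pow]
        ring
    refine h1.congr_fun fun m => ?_
    rw [integral_mul_const]
  · have h1 := (hI m).mul_const (m.factorial : ℝ)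
    refine h1.congr (Eventually.of_forall fun y => ?_)
    have : (m.factorial : ℝ) ≠ 0 := by positivity
    simp only
    field_simp

/-- the basic integrals -/
noncomputable def F (α β : ℝ) : ℝ := ∫ y in (0 : ℝ)..1, (1 - y) ^ α * (1 + y) ^ (β - 1)

theorem int1 {β : ℝ} (hβ : 0 < β) (γ : ℝ) :
    IntervalIntegrable (fun y : ℝ => (1 - y) ^ (β - 1) * (1 + y) ^ γ) volume 0 1 := by
  have h1 : IntervalIntegrable (fun y : ℝ => y ^ (β - 1)) volume 0 1 :=
    intervalIntegral.intervalIntegrable_rpow' (by linarith)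
  have h2 := (h1.comp_sub_left 1).symm
  simp only [sub_zero, sub_self] at h2
  refine h2.mul_continuousOn ?_
  refine ContinuousOn.rpow_const (by fun_prop) fun y hy => Or.inl ?_
  rw [Set.uIcc_of_le zero_le_one] at hy
  linarith [hy.1]

theorem byparts {α β : ℝ} (hβ : 0 < β) :
    β * (∫ y in (0 : ℝ)..1, (1 - y) ^ (β - 1) * (1 + y) ^ α) = 1 + α * F β α := by
  have hi1 := int1 hβ α
  have hi2 := int1 (β := β + 1) (by linarith) (α - 1)
  rw [add_sub_cancel_right] at hi2
  have h1 : ∫ y in (0 : ℝ)..1, (-β * ((1 - y) ^ (β - 1) * (1 + y) ^ α) +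
      α * ((1 - y) ^ β * (1 + y) ^ (α - 1))) =
      (1 - 1 : ℝ) ^ β * (1 + 1) ^ α - (1 - 0) ^ β * (1 + 0) ^ α := by
    refine intervalIntegral.integral_eq_sub_of_hasDeriv_right_of_le zero_le_one
      (f := fun y : ℝ => (1 - y) ^ β * (1 + y) ^ α) ?_ ?_ ?_
    · refine ContinuousOn.mul ?_ ?_
      · exact ContinuousOn.rpow_const (by fun_prop) fun y hy => Or.inr hβ.le
      · refine ContinuousOn.rpow_const (by fun_prop) fun y hy => Or.inl ?_
        linarith [hy.1]
    · intro y hy
      have h2 : HasDerivAt (fun y : ℝ => (1 - y) ^ β) (-1 * β * (1 - y) ^ (β - 1)) y :=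
        ((hasDerivAt_id y).const_sub 1).rpow_const (Or.inl (by simp; linarith [hy.2]))
      have h3 : HasDerivAt (fun y : ℝ => (1 + y) ^ α) (1 * α * (1 + y) ^ (α - 1)) y :=
        ((hasDerivAt_id y).const_add 1).rpow_const (Or.inl (by simp; linarith [hy.1]))
      refine HasDerivAt.hasDerivWithinAt ?_
      have h4 := h2.mul h3
      refine h4.congr_deriv ?_
      ring
    · exact (hi1.const_mul _).add (hi2.const_mul _)
  rw [intervalIntegral.integral_add (hi1.const_mul _) (hi2.const_mul _),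
    intervalIntegral.integral_const_mul, intervalIntegral.integral_const_mul] at h1
  rw [sub_self, Real.zero_rpow hβ.ne'] at h1
  simp only [zero_mul, sub_zero, add_zero, Real.one_rpow, one_mul, zero_sub, neg_mul] at h1
  rw [F]
  linarith

theorem beta_real {u v : ℝ} (hu : 0 < u) (hv : 0 < v) :
    ∫ t in (0 : ℝ)..1, t ^ (u - 1) * (1 - t) ^ (v - 1) =
      Real.Gamma u * Real.Gamma v / Real.Gamma (u + v) := by
  have h1 := Complex.betaIntegral_eq_Gamma_mul_div (u : ℂ) (v : ℂ) (by simpa) (by simpa)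
  rw [← Complex.ofReal_add, Complex.Gamma_ofReal, Complex.Gamma_ofReal, Complex.Gamma_ofReal] at h1
  have h2 : Complex.betaIntegral u v = ((∫ t in (0 : ℝ)..1, t ^ (u - 1) * (1 - t) ^ (v - 1) : ℝ) : ℂ) := by
    rw [Complex.betaIntegral, ← intervalIntegral.integral_ofReal]
    refine intervalIntegral.integral_congr fun t ht => ?_
    rw [Set.uIcc_of_le zero_le_one] at ht
    rw [Complex.ofReal_mul, Complex.ofReal_cpow ht.1, Complex.ofReal_cpow (by linarith [ht.2])]
    push_cast
    rfl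
  rw [h2] at h1
  exact_mod_cast h1

theorem beta_rel {α β : ℝ} (hα : 0 < α) (hβ : 0 < β) :
    β * F α β + α * F β α + 1 =
      2 ^ (α + β) * (Real.Gamma (1 + α) * Real.Gamma (1 + β) / Real.Gamma (1 + (α + β))) := by
  have h0 := beta_real (u := β) (v := α + 1) hβ (by linarith)
  rw [add_sub_cancel_right] at h0
  have hi : IntervalIntegrable (fun t : ℝ => t ^ (β - 1) * (1 - t) ^ α) volume 0 1 := by
    refine (intervalIntegral.intervalIntegrable_rpow' (by linarith)).mul_continuousOn ?_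
    exact ContinuousOn.rpow_const (by fun_prop) fun y hy => Or.inr hα.le
  have hsub1 : Set.uIcc (0 : ℝ) (1 / 2) ⊆ Set.uIcc 0 1 := by
    rw [Set.uIcc_of_le (by norm_num), Set.uIcc_of_le (by norm_num)]
    exact Set.Icc_subset_Icc le_rfl (by norm_num)
  have hsub2 : Set.uIcc (1 / 2 : ℝ) 1 ⊆ Set.uIcc 0 1 := by
    rw [Set.uIcc_of_le (by norm_num), Set.uIcc_of_le (by norm_num)]
    exact Set.Icc_subset_Icc (by norm_num) le_rfl
  rw [← intervalIntegral.integral_add_adjacent_intervals (hi.mono_set hsub1) (hi.mono_set hsub2)] at h0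
  have e1 : ∫ t in (0 : ℝ)..(1 / 2), t ^ (β - 1) * (1 - t) ^ α =
      2 ^ (-(α + β)) * ∫ y in (0 : ℝ)..1, (1 - y) ^ (β - 1) * (1 + y) ^ α := by
    have h1 := intervalIntegral.integral_comp_mul_add (a := 0) (b := 1)
      (fun t : ℝ => t ^ (β - 1) * (1 - t) ^ α) (c := -(1 / 2)) (by norm_num) (1 / 2)
    have h2 : ∫ t in (-(1 / 2) * 0 + 1 / 2 : ℝ)..(-(1 / 2) * 1 + 1 / 2), t ^ (β - 1) * (1 - t) ^ α =
        - ∫ t in (0 : ℝ)..(1 / 2), t ^ (β - 1) * (1 - t) ^ α := by
      rw [← intervalIntegral.integral_symm]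
      norm_num
    rw [h2] at h1
    have h3 : ∫ x in (0 : ℝ)..1, (-(1 / 2) * x + 1 / 2) ^ (β - 1) * (1 - (-(1 / 2) * x + 1 / 2)) ^ α =
        2 ^ (-(α + β) + 1) * ∫ y in (0 : ℝ)..1, (1 - y) ^ (β - 1) * (1 + y) ^ α := by
      rw [← intervalIntegral.integral_const_mul]
      refine intervalIntegral.integral_congr fun y hy => ?_
      rw [Set.uIcc_of_le zero_le_one] at hy
      have e2 : (-(1 / 2) * y + 1 / 2 : ℝ) = (1 - y) * 2⁻¹ := by ring
      have e3 : (1 - (-(1 / 2) * y + 1 / 2) : ℝ) = (1 + y) * 2⁻¹ := by ring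
      rw [e3, e2, Real.mul_rpow (by linarith [hy.2]) (by norm_num),
        Real.mul_rpow (by linarith [hy.1]) (by norm_num), Real.inv_rpow (by norm_num),
        Real.inv_rpow (by norm_num), ← Real.rpow_neg (by norm_num), ← Real.rpow_neg (by norm_num)]
      have e4 : (2 : ℝ) ^ (-(α + β) + 1) = 2 ^ (-(β - 1)) * 2 ^ (-α) := by
        rw [← Real.rpow_add (by norm_num)]
        ring_nf
      rw [e4]
      ring
    rw [h3] at h1
    rw [Real.rpow_add (by norm_num), Real.rpow_one] at h1
    simp only [smul_eq_mul] at h1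
    have : (-(1 / 2) : ℝ)⁻¹ = -2 := by norm_num
    rw [this] at h1
    linarith
  have e2 : ∫ t in (1 / 2 : ℝ)..1, t ^ (β - 1) * (1 - t) ^ α = 2 ^ (-(α + β)) * F α β := by
    have h1 := intervalIntegral.integral_comp_mul_add (a := 0) (b := 1)
      (fun t : ℝ => t ^ (β - 1) * (1 - t) ^ α) (c := 1 / 2) (by norm_num) (1 / 2)
    have h2 : ∫ t in (1 / 2 * 0 + 1 / 2 : ℝ)..(1 / 2 * 1 + 1 / 2), t ^ (β - 1) * (1 - t) ^ α =
        ∫ t in (1 / 2 : ℝ)..1, t ^ (β - 1) * (1 - t) ^ α := by
      norm_num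
    rw [h2] at h1
    have h3 : ∫ x in (0 : ℝ)..1, (1 / 2 * x + 1 / 2) ^ (β - 1) * (1 - (1 / 2 * x + 1 / 2)) ^ α =
        2 ^ (-(α + β) + 1) * F α β := by
      rw [F, ← intervalIntegral.integral_const_mul]
      refine intervalIntegral.integral_congr fun y hy => ?_
      rw [Set.uIcc_of_le zero_le_one] at hy
      have e2 : (1 / 2 * y + 1 / 2 : ℝ) = (1 + y) * 2⁻¹ := by ring
      have e3 : (1 - (1 / 2 * y + 1 / 2) : ℝ) = (1 - y) * 2⁻¹ := by ring
      rw [e3, e2, Real.mul_rpow (by linarith [hy.1]) (by norm_num),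
        Real.mul_rpow (by linarith [hy.2]) (by norm_num), Real.inv_rpow (by norm_num),
        Real.inv_rpow (by norm_num), ← Real.rpow_neg (by norm_num), ← Real.rpow_neg (by norm_num)]
      have e4 : (2 : ℝ) ^ (-(α + β) + 1) = 2 ^ (-(β - 1)) * 2 ^ (-α) := by
        rw [← Real.rpow_add (by norm_num)]
        ring_nf
      rw [e4]
      ring
    rw [h3] at h1
    rw [Real.rpow_add (by norm_num), Real.rpow_one] at h1
    simp only [smul_eq_mul] at h1
    have : (1 / 2 : ℝ)⁻¹ = 2 := by norm_num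
    rw [this] at h1
    linarith
  rw [e1, e2] at h0
  have h4 := byparts (α := α) hβ
  have h5 : Real.Gamma (1 + β) = β * Real.Gamma β := by
    rw [add_comm, Real.Gamma_add_one hβ.ne']
  have h6 : β + (α + 1) = 1 + (α + β) := by ring
  rw [h6, add_comm α 1] at h0
  have h7 : (2 : ℝ) ^ (α + β) * 2 ^ (-(α + β)) = 1 := by
    rw [← Real.rpow_add (by norm_num), add_neg_cancel, Real.rpow_zero]
  rw [h5]
  calc β * F α β + α * F β α + 1 =
      (2 : ℝ) ^ (α + β) * 2 ^ (-(α + β)) * (β * F α β + (1 + α * F β α)) := by rw [h7]; ring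
    _ = 2 ^ (α + β) * (β * (2 ^ (-(α + β)) * (∫ y in (0 : ℝ)..1, (1 - y) ^ (β - 1) * (1 + y) ^ α) +
          2 ^ (-(α + β)) * F α β)) := by rw [← h4]; ring
    _ = _ := by rw [h0]; ring

end Pool.Agent.X109.LI
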