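import Pool.Agent.X109.LI.A
import Pool.Agent.X109.LI.B
import Pool.Agent.X109.LI.C

set_option autoImplicit false

namespace Pool.Agent.X109.LI

open Filter Topology MeasureTheory

/-- Lebesgue measure on `(0, 1)` -/
noncomputable abbrev mu : Measure ℝ := volume.restrict (Set.Ioo 0 1)

theorem ae_mem : ∀ᵐ y ∂mu, y ∈ Set.Ioo (0 : ℝ) 1 := ae_restrict_mem measurableSet_Ioo

theorem to_mu (g : ℝ → ℝ) : ∫ y in (0 : ℝ)..1, g y = ∫ y, g y ∂mu := by
  rw [intervalIntegral.integral_of_le zero_le_one, integral_Ioc_eq_integral_Ioo]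

theorem mu_int {g : ℝ → ℝ} (h : IntervalIntegrable g volume 0 1) : Integrable g mu := by
  rw [intervalIntegrable_iff_integrableOn_Ioo_of_le zero_le_one] at h
  exact h

theorem meas_a : Measurable fun y : ℝ => Real.log (1 - y) := by fun_prop
theorem meas_b : Measurable fun y : ℝ => Real.log (1 + y) := by fun_prop

theorem log_b {y : ℝ} (hy : y ∈ Set.Ioo (0 : ℝ) 1) : 0 ≤ Real.log (1 + y) ∧ Real.log (1 + y) ≤ 1 := by
  refine ⟨Real.log_nonneg (by linarith [hy.1]), ?_⟩
  have := Real.log_le_sub_one_of_pos (x := 1 + y) (by linarith [hy.1])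
  linarith [hy.2]

theorem exp_int {r u v : ℝ} (hr : 0 < r) (hu : 0 ≤ u) (hv : 0 ≤ v) (h : r * u < 1) :
    Integrable (fun y => Real.exp (r * |u * Real.log (1 - y) + v * Real.log (1 + y)|)) mu := by
  have h1 := mu_int (int1 (β := 1 - r * u) (by linarith) (r * v))
  have h2 : Measurable fun y : ℝ => Real.exp (r * |u * Real.log (1 - y) + v * Real.log (1 + y)|) := by
    fun_prop
  refine h1.mono' h2.aestronglyMeasurable ?_
  filter_upwards [ae_mem] with y hy
  have hb := (log_b hy).1
  have ha : Real.log (1 - y) ≤ 0 := Real.log_nonpos (by linarith [hy.2]) (by linarith [hy.1])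
  rw [Real.norm_eq_abs, Real.abs_exp, Real.rpow_def_of_pos (by linarith [hy.2]),
    Real.rpow_def_of_pos (by linarith [hy.1]), ← Real.exp_add]
  apply Real.exp_le_exp.2
  have h3 : |u * Real.log (1 - y) + v * Real.log (1 + y)| ≤
      -(u * Real.log (1 - y)) + v * Real.log (1 + y) := by
    have h4 : u * Real.log (1 - y) ≤ 0 := mul_nonpos_of_nonneg_of_nonpos hu ha
    have h5 : 0 ≤ v * Real.log (1 + y) := mul_nonneg hv hb
    rw [abs_le]
    constructor <;> linarith
  nlinarith [mul_le_mul_of_nonneg_left h3 hr.le]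

/-- the integrals `∫ log^p (1-y) log^q (1+y) / (1+y)` -/
noncomputable def f (p q : ℕ) : ℝ :=
  ∫ y in (0 : ℝ)..1, Real.log (1 - y) ^ p * Real.log (1 + y) ^ q / (1 + y)

theorem f_int (p q : ℕ) :
    Integrable (fun y => Real.log (1 - y) ^ p * (Real.log (1 + y) ^ q / (1 + y))) mu := by
  have h1 := exp_int (r := 1 / 2) (u := 1) (v := 0) (by norm_num) (by norm_num) le_rfl (by norm_num)
  simp only [one_mul, zero_mul, add_zero] at h1
  refine (exp_series (fun y => Real.log (1 - y)) (fun y => Real.log (1 + y) ^ q / (1 + y))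
    meas_a.aestronglyMeasurable ?_ ?_ (1 / 2) (by norm_num) h1).2.2 p
  · have : Measurable fun y : ℝ => Real.log (1 + y) ^ q / (1 + y) := by fun_prop
    exact this.aestronglyMeasurable
  · filter_upwards [ae_mem] with y hy
    obtain ⟨h2, h3⟩ := log_b hy
    rw [abs_div, abs_pow, abs_of_nonneg h2, abs_of_pos (by linarith [hy.1])]
    rw [div_le_one (by linarith [hy.1])]
    exact (pow_le_one₀ h2 h3).trans (by linarith [hy.1])

/-- the coefficients of `∫ exp (x (u a + v b)) / (1 + y)` -/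
noncomputable def g (u v : ℝ) (m : ℕ) : ℝ :=
  ∫ y, (u * Real.log (1 - y) + v * Real.log (1 + y)) ^ m * (1 / (1 + y)) / m.factorial ∂mu

theorem g_eq (u v : ℝ) (m : ℕ) :
    m.factorial * g u v m = ∑ p ∈ Finset.range (m + 1), (m.choose p : ℝ) * u ^ p * v ^ (m - p) * f p (m - p) := by
  have h0 : (m.factorial : ℝ) ≠ 0 := by positivity
  rw [g, integral_div, mul_div_cancel₀ _ h0]
  have h1 : ∀ y : ℝ, (u * Real.log (1 - y) + v * Real.log (1 + y)) ^ m * (1 / (1 + y)) =
      ∑ p ∈ Finset.range (m + 1), ((m.choose p : ℝ) * u ^ p * v ^ (m - p)) *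
        (Real.log (1 - y) ^ p * (Real.log (1 + y) ^ (m - p) / (1 + y))) := by
    intro y
    rw [add_pow, Finset.sum_mul]
    refine Finset.sum_congr rfl fun p _ => ?_
    rw [mul_pow, mul_pow]
    ring
  simp only [h1]
  rw [integral_finsetSum _ fun p _ => (f_int p (m - p)).const_mul _]
  refine Finset.sum_congr rfl fun p _ => ?_
  rw [integral_const_mul, f, to_mu]
  simp only [mul_div_assoc]

theorem F_series {r u v : ℝ} (hr : 0 < r) (hu : 0 ≤ u) (hv : 0 ≤ v) (h : r * u < 1) :
    (Summable fun m : ℕ => |g u v m| * r ^ m) ∧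
    ∀ x, 0 < x → x ≤ r → HasSum (fun m : ℕ => g u v m * x ^ m) (F (u * x) (v * x)) := by
  have hm1 : Measurable fun y : ℝ => u * Real.log (1 - y) + v * Real.log (1 + y) := by fun_prop
  have hm2 : Measurable fun y : ℝ => 1 / (1 + y) := by fun_prop
  have h1 := exp_series (μ := mu) (fun y => u * Real.log (1 - y) + v * Real.log (1 + y))
    (fun y => 1 / (1 + y)) hm1.aestronglyMeasurable hm2.aestronglyMeasurable (by
      filter_upwards [ae_mem] with y hy
      rw [abs_div, abs_one, abs_of_pos (by linarith [hy.1]), div_le_one (by linarith [hy.1])]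
      linarith [hy.1]) r hr (exp_int hr hu hv h)
  refine ⟨h1.1, fun x hx hxr => ?_⟩
  have h2 := h1.2.1 x (by rwa [abs_of_pos hx])
  have h4 : F (u * x) (v * x) = ∫ y, Real.exp (x * (u * Real.log (1 - y) + v * Real.log (1 + y))) *
      (1 / (1 + y)) ∂mu := by
    rw [F, to_mu]
    refine integral_congr_ae ?_
    filter_upwards [ae_mem] with y hy
    rw [Real.rpow_def_of_pos (by linarith [hy.2]), Real.rpow_def_of_pos (by linarith [hy.1]),
      ← Real.exp_add]
    have h3 : Real.log (1 - y) * (u * x) + Real.log (1 + y) * (v * x - 1) =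
        x * (u * Real.log (1 - y) + v * Real.log (1 + y)) + -Real.log (1 + y) := by ring
    rw [h3, Real.exp_add, Real.exp_neg, Real.exp_log (by linarith [hy.1]), one_div]
  rw [h4]
  exact h2

/-- coefficients of the left-hand side -/
noncomputable def cc (k : ℕ) : ℕ → ℝ
  | 0 => 1
  | m + 1 => g k 1 m + k * g 1 k m

/-- coefficients of the exponent -/
noncomputable def hc (k : ℕ) : ℕ → ℝ
  | 0 => 0
  | n + 1 => cf k 1 n * zr (n + 1) + (if n = 0 then (k + 1) * Real.log 2 else 0)

theorem cf_scale (k : ℕ) (x : ℝ) (n : ℕ) : cf (k * x) x n = cf k 1 n * x ^ (n + 1) := by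
  rw [cf, cf]
  have e1 : (-(k * x) : ℝ) = (-k) * x := by ring
  have e2 : (-x : ℝ) = (-1) * x := by ring
  have e3 : (-(k * x + x) : ℝ) = (-(k + 1)) * x := by ring
  rw [e1, e3, mul_pow, mul_pow]
  nth_rw 1 [e2]
  rw [mul_pow]
  ring

theorem cc_summable (k : ℕ) {r : ℝ} (hr : 0 < r) (h : r * (k + 1) < 1) :
    Summable fun m => |cc k m| * r ^ m := by
  have hk : (0 : ℝ) ≤ k := Nat.cast_nonneg k
  have h1 := (F_series (r := r) (u := k) (v := 1) hr hk zero_le_one (by nlinarith)).1
  have h2 := (F_series (r := r) (u := 1) (v := k) hr zero_le_one hk (by nlinarith)).1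
  rw [← summable_nat_add_iff 1]
  refine Summable.of_nonneg_of_le (fun m => by positivity) (fun m => ?_)
    ((h1.mul_left r).add (h2.mul_left (k * r)))
  rw [cc, pow_succ]
  have h3 := abs_add_le (g k 1 m) (k * g 1 k m)
  rw [abs_mul, abs_of_nonneg hk] at h3
  have h4 : 0 ≤ r ^ m * r := by positivity
  nlinarith [mul_le_mul_of_nonneg_right h3 h4]

theorem hc_summable (k : ℕ) {r : ℝ} (hr : 0 < r) (h : r * (k + 1) < 1) :
    Summable fun m => |hc k m| * r ^ m := by
  have hk : (0 : ℝ) ≤ k := Nat.cast_nonneg k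
  rw [← summable_nat_add_iff 1]
  have hs1 : Summable fun n : ℕ => (r * (k + 1)) ^ (n + 1) * zr 2 :=
    ((summable_nat_add_iff 1).2 (summable_geometric_of_lt_one (by positivity) h)).mul_right _
  have hs2 : Summable fun n : ℕ => if n = 0 then |((k : ℝ) + 1) * Real.log 2| * r else 0 :=
    summable_of_ne_finset_zero (s := {0}) fun n hn => by
      rw [if_neg (by simpa using hn)]
  refine Summable.of_nonneg_of_le (fun m => by positivity) (fun n => ?_) (hs1.add hs2)
  rw [hc]
  have h3 := abs_add_le (cf k 1 n * zr (n + 1)) (if n = 0 then ((k : ℝ) + 1) * Real.log 2 else 0)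
  have hrn : 0 ≤ r ^ (n + 1) := by positivity
  have h4 : |cf k 1 n * zr (n + 1)| * r ^ (n + 1) ≤ (r * (k + 1)) ^ (n + 1) * zr 2 := by
    rw [abs_mul, abs_of_nonneg (zr_nonneg _), mul_pow]
    rcases Nat.eq_zero_or_pos n with rfl | hn
    · rw [cf_zero, abs_zero]
      have := zr_nonneg 2
      simp only [zero_mul]
      positivity
    · have h5 := cf_abs hk zero_le_one n
      have h6 := zr_le (m := n + 1) (by omega)
      have h7 := zr_nonneg (n + 1)
      calc |cf k 1 n| * zr (n + 1) * r ^ (n + 1) ≤ (k + 1) ^ (n + 1) * zr 2 * r ^ (n + 1) := by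
            gcongr
        _ = _ := by ring
  have h5 : |if n = 0 then ((k : ℝ) + 1) * Real.log 2 else 0| * r ^ (n + 1) =
      if n = 0 then |((k : ℝ) + 1) * Real.log 2| * r else 0 := by
    split_ifs with h0
    · rw [h0]
      ring
    · simp
  rw [← h5]
  calc _ ≤ (|cf k 1 n * zr (n + 1)| + |if n = 0 then ((k : ℝ) + 1) * Real.log 2 else 0|) * r ^ (n + 1) :=
        mul_le_mul_of_nonneg_right h3 hrn
    _ ≤ _ := by rw [add_mul]; linarith

theorem hc_mem (A : Subalgebra ℚ ℝ) (h1 : Real.log 2 ∈ A) (h2 : Real.pi ^ 2 ∈ A)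
    (h3 : ∀ k, 3 ≤ k → Odd k → zr k ∈ A) (k m : ℕ) : hc k m ∈ A := by
  cases m with
  | zero => exact Subalgebra.zero_mem A
  | succ n =>
    rw [hc]
    have hq : ∀ q : ℚ, ((q : ℝ)) ∈ A := fun q => Subalgebra.algebraMap_mem A q
    have hcf : cf k 1 n ∈ A := by
      have : cf k 1 n = (((((-(k : ℚ)) ^ (n + 1) + (-1) ^ (n + 1) - (-(k + 1)) ^ (n + 1)) / (n + 1)) : ℚ) : ℝ) := by
        rw [cf]
        push_cast
        rfl
      rw [this]
      exact hq _
    refine Subalgebra.add_mem _ ?_ ?_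
    · rcases Nat.eq_zero_or_pos n with rfl | hn
      · rw [cf_zero, zero_mul]
        exact Subalgebra.zero_mem A
      · refine Subalgebra.mul_mem _ hcf ?_
        rcases Nat.even_or_odd' (n + 1) with ⟨j, hj | hj⟩
        · have hj0 : j ≠ 0 := by omega
          have h4 := hasSum_zeta_nat hj0
          have h5 := (hasSum_nat_add_iff' 1).2 h4
          rw [Finset.sum_range_one] at h5
          simp only [Nat.cast_zero, ne_eq, mul_eq_zero, OfNat.ofNat_ne_zero, false_or, hj0,
            not_false_eq_true, zero_pow, div_zero, sub_zero] at h5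
          have h6 : zr (n + 1) = (-1 : ℝ) ^ (j + 1) * (2 : ℝ) ^ (2 * j - 1) * Real.pi ^ (2 * j) *
              (bernoulli (2 * j) : ℝ) / (2 * j).factorial := by
            rw [← h5.tsum_eq, zr, hj]
            refine tsum_congr fun i => ?_
            push_cast
            rfl
          have h7 : zr (n + 1) = (((-1 : ℚ) ^ (j + 1) * (2 : ℚ) ^ (2 * j - 1) *
              bernoulli (2 * j) / (2 * j).factorial : ℚ) : ℝ) * (Real.pi ^ 2) ^ j := by
            rw [h6, pow_mul]
            push_cast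
            ring
          rw [h7]
          exact Subalgebra.mul_mem _ (hq _) (Subalgebra.pow_mem _ h2 _)
        · exact h3 _ (by omega) ⟨j, hj⟩
    · split_ifs with h0
      · refine Subalgebra.mul_mem _ ?_ h1
        have : ((k : ℝ) + 1) = (((k + 1 : ℚ)) : ℝ) := by push_cast; rfl
        rw [this]
        exact hq _
      · exact Subalgebra.zero_mem A

theorem series_eq (k : ℕ) (hk1 : 1 ≤ k) {r : ℝ} (h : r * (k + 1) < 1) (x : ℝ)
    (hx : 0 < x) (hxr : x < r) :
    ∑' m, cc k m * x ^ m = Real.exp (∑' m, hc k m * x ^ m) := by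
  have hr : 0 < r := hx.trans hxr
  have hk : (1 : ℝ) ≤ k := by exact_mod_cast hk1
  have hk0 : (0 : ℝ) ≤ k := by linarith
  have h1 := (F_series (r := r) (u := k) (v := 1) hr hk0 zero_le_one (by nlinarith)).2 x hx hxr.le
  have h2 := (F_series (r := r) (u := 1) (v := k) hr zero_le_one hk0 (by nlinarith)).2 x hx hxr.le
  rw [one_mul] at h1 h2
  have h3 : HasSum (fun m => cc k (m + 1) * x ^ (m + 1)) (x * F (k * x) x + k * x * F x (k * x)) := by
    refine ((h1.mul_left x).add (h2.mul_left (k * x))).congr_fun fun m => ?_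
    rw [cc, pow_succ]
    ring
  have h4 : ∑' m, cc k m * x ^ m = x * F (k * x) x + k * x * F x (k * x) + 1 := by
    have h5 : Summable fun m => cc k m * x ^ m := (summable_nat_add_iff 1).1 h3.summable
    rw [h5.tsum_eq_zero_add, h3.tsum_eq, cc]
    ring
  have h5 := beta_rel (α := k * x) (β := x) (by positivity) hx
  rw [gamma_exp (by positivity) hx.le (by nlinarith)] at h5
  rw [h4, h5, Real.rpow_def_of_pos (by norm_num), ← Real.exp_add]
  congr 1
  have h6 : Summable fun m => hc k m * x ^ m := by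
    refine Summable.of_norm_bounded (hc_summable k hr h) fun m => ?_
    rw [norm_mul, norm_pow, Real.norm_eq_abs, Real.norm_eq_abs, abs_of_pos hx]
    gcongr
  have h7 : Summable fun n : ℕ => cf k 1 n * zr (n + 1) * x ^ (n + 1) := by
    have hs1 : Summable fun n : ℕ => (r * (k + 1)) ^ (n + 1) * zr 2 :=
      ((summable_nat_add_iff 1).2 (summable_geometric_of_lt_one (by positivity) h)).mul_right _
    refine Summable.of_norm_bounded hs1 fun n => ?_
    rw [norm_mul, norm_mul, norm_pow, Real.norm_eq_abs, Real.norm_eq_abs, Real.norm_eq_abs,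
      abs_of_pos hx, abs_of_nonneg (zr_nonneg _), mul_pow]
    rcases Nat.eq_zero_or_pos n with rfl | hn
    · rw [cf_zero, abs_zero]
      have := zr_nonneg 2
      simp only [zero_mul]
      positivity
    · have h8 := cf_abs hk0 zero_le_one n
      have h9 := zr_le (m := n + 1) (by omega)
      have h10 := zr_nonneg (n + 1)
      have h11 := zr_nonneg 2
      calc |cf k 1 n| * zr (n + 1) * x ^ (n + 1) ≤ (k + 1) ^ (n + 1) * zr 2 * r ^ (n + 1) := by
            gcongr
        _ = _ := by ring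
  rw [h6.tsum_eq_zero_add]
  have h8 : ∀ n : ℕ, hc k (n + 1) * x ^ (n + 1) = cf k 1 n * zr (n + 1) * x ^ (n + 1) +
      (if n = 0 then ((k : ℝ) + 1) * Real.log 2 * x else 0) := by
    intro n
    rw [hc]
    split_ifs with h0
    · rw [h0]
      ring
    · ring
  simp only [h8]
  rw [Summable.tsum_add h7 (summable_of_ne_finset_zero (s := {0}) fun n hn => by
      rw [if_neg (by simpa using hn)]), tsum_ite_eq]
  rw [hc]
  have h9 : ∑' n, cf (k * x) x n * zr (n + 1) = ∑' n, cf k 1 n * zr (n + 1) * x ^ (n + 1) := by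
    refine tsum_congr fun n => ?_
    rw [cf_scale]
    ring
  rw [h9]
  ring

theorem cc_mem (A : Subalgebra ℚ ℝ) (h1 : Real.log 2 ∈ A) (h2 : Real.pi ^ 2 ∈ A)
    (h3 : ∀ k, 3 ≤ k → Odd k → zr k ∈ A) (k : ℕ) (hk1 : 1 ≤ k) (m : ℕ) : cc k m ∈ A := by
  have hk : (1 : ℝ) ≤ k := by exact_mod_cast hk1
  set r : ℝ := 1 / (2 * (k + 1)) with hr
  have hr0 : 0 < r := by positivity
  have hr1 : r * (k + 1) < 1 := by
    rw [hr]
    have : (0 : ℝ) < k + 1 := by positivity
    field_simp
    norm_num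
  obtain ⟨h4, h5⟩ := ps_analytic (hc k) r hr0 (hc_summable k hr0 hr1)
  refine coeff_mem A (cc k) r hr0 (cc_summable k hr0 hr1) (fun x => ∑' m, hc k m * x ^ m) h4 ?_ ?_
    r hr0 (fun x hx hxr => series_eq k hk1 hr1 x hx hxr) m
  · have : ∀ m, hc k m * (0 : ℝ) ^ m = 0 := by
      intro m
      cases m with
      | zero => simp [hc]
      | succ n => simp
    simp only [this, tsum_zero]
  · intro m _
    rw [h5 m]
    exact Subalgebra.mul_mem _ (natCast_mem A _) (hc_mem A h1 h2 h3 k m)

/-- the main theorem -/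
theorem main (A : Subalgebra ℚ ℝ) (h1 : Real.log 2 ∈ A) (h2 : Real.pi ^ 2 ∈ A)
    (h3 : ∀ k, 3 ≤ k → Odd k → zr k ∈ A) (n : ℕ) : f (n + 1) n ∈ A := by
  set m : ℕ := 2 * n + 1 with hm
  set co : ℕ → ℝ := fun j => (m.choose j : ℝ) * f j (m - j) +
    (m.choose (m + 1 - j) : ℝ) * f (m + 1 - j) (j - 1) with hco
  have hsum : ∀ k : ℕ, ∑ j ∈ Finset.range (m + 2), co j * (k : ℝ) ^ j = m.factorial * cc k (m + 1) := by
    intro k
    rw [cc, mul_add, g_eq]
    have e1 : (m.factorial : ℝ) * (k * g 1 k m) = k * (m.factorial * g 1 k m) := by ring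
    rw [e1, g_eq]
    simp only [hco, add_mul, Finset.sum_add_distrib]
    congr 1
    · rw [Finset.sum_range_succ, Nat.choose_succ_self]
      simp only [Nat.cast_zero, zero_mul, add_zero, one_pow, mul_one]
      refine Finset.sum_congr rfl fun j _ => ?_
      ring
    · rw [Finset.sum_range_succ', Nat.sub_zero, Nat.choose_succ_self]
      simp only [Nat.cast_zero, zero_mul, add_zero, one_pow, mul_one]
      rw [Finset.mul_sum, ← Finset.sum_range_reflect]
      refine Finset.sum_congr rfl fun j hj => ?_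
      rw [Finset.mem_range] at hj
      have e2 : m + 1 - (m + 1 - 1 - j + 1) = j := by omega
      have e3 : m + 1 - 1 - j + 1 - 1 = m - j := by omega
      have e4 : m + 1 - 1 - j + 1 = (m - j) + 1 := by omega
      rw [e2, e3, e4, pow_succ]
      ring
  have hv := vander A (m + 1) (fun j => co j) (fun k => ?_) ⟨n + 1, by omega⟩
  · simp only [hco] at hv
    have e1 : m - (n + 1) = n := by omega
    have e2 : m + 1 - (n + 1) = n + 1 := by omega
    have e3 : n + 1 - 1 = n := by omega
    rw [e1, e2, e3] at hv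
    have hne : ((m.choose (n + 1) : ℕ) : ℝ) ≠ 0 := by
      have : 0 < m.choose (n + 1) := Nat.choose_pos (by omega)
      positivity
    have e4 : f (n + 1) n = (algebraMap ℚ ℝ) ((2 * (m.choose (n + 1) : ℚ))⁻¹) *
        ((m.choose (n + 1) : ℝ) * f (n + 1) n + (m.choose (n + 1) : ℝ) * f (n + 1) n) := by
      simp
      field_simp
      ring
    rw [e4]
    exact Subalgebra.mul_mem _ (Subalgebra.algebraMap_mem _ _) hv
  · rw [Fin.sum_univ_eq_sum_range (fun j => co j * (((k : ℕ) + 1 : ℕ) : ℝ) ^ j) (m + 1 + 1)]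
    rw [hsum]
    exact Subalgebra.mul_mem _ (natCast_mem A _) (cc_mem A h1 h2 h3 _ (by omega) _)

end Pool.Agent.X109.LI
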